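import Mathlib

/-!
# The free modules over the Cohn algebra with two generators

A module is an abelian group with additive operations `x b`, `y b` (`b` a boolean) such that
`y a (x b m) = m` if `a = b` and `= 0` otherwise. The free module on `G` is the free abelian group
on the triples `(I, J, g)`, which stand for `x_I y_J g`.
-/

set_option autoImplicit false

namespace Pool.Agent.H29.ISO

/-- iterated application: `wd x [b₁, …, bₖ] m = x b₁ (… (x bₖ m))` -/
def wd {M : Type} [AddCommGroup M] (x : Bool → M →+ M) (I : List Bool) (m : M) : M :=
  I.foldr (fun b z => x b z) m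

section wd
variable {M : Type} [AddCommGroup M] (x : Bool → M →+ M)

@[simp] theorem wd_nil (m : M) : wd x [] m = m := rfl

@[simp] theorem wd_cons (b : Bool) (I : List Bool) (m : M) : wd x (b :: I) m = x b (wd x I m) := rfl

theorem wd_append (I J : List Bool) (m : M) : wd x (I ++ J) m = wd x I (wd x J m) := by
  induction I with
  | nil => rfl
  | cons b I ih => simp [ih]

theorem wd_add (I : List Bool) (m n : M) : wd x I (m + n) = wd x I m + wd x I n := by
  induction I with
  | nil => rfl
  | cons b I ih => simp [ih]

theorem wd_zero (I : List Bool) : wd x I 0 = 0 := by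
  induction I with
  | nil => rfl
  | cons b I ih => simp [ih]

end wd

/-- the carrier of the free module on `G` -/
abbrev H (G : Type) : Type := FreeAbelianGroup (List Bool × List Bool × G)

/-- basis elements -/
def bs {G : Type} (I J : List Bool) (g : G) : H G := FreeAbelianGroup.of (I, J, g)

/-- the generators -/
def gen {G : Type} (g : G) : H G := bs [] [] g

noncomputable def hx {G : Type} (b : Bool) : H G →+ H G :=
  FreeAbelianGroup.lift (fun t => bs (b :: t.1) t.2.1 t.2.2)

/-- the operation `y` on basis elements -/
def yb {G : Type} (b : Bool) (I J : List Bool) (g : G) : H G :=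
  match I with
  | [] => bs [] (b :: J) g
  | a :: I => if b = a then bs I J g else 0

noncomputable def hy {G : Type} (b : Bool) : H G →+ H G :=
  FreeAbelianGroup.lift (fun t => yb b t.1 t.2.1 t.2.2)

@[simp] theorem hx_bs {G : Type} (b : Bool) (I J : List Bool) (g : G) :
    hx b (bs I J g) = bs (b :: I) J g := by
  simp [hx, bs]

@[simp] theorem hy_bs {G : Type} (b : Bool) (I J : List Bool) (g : G) :
    hy b (bs I J g) = yb b I J g := by
  simp [hy, bs]

theorem H_ext {G M : Type} [AddCommGroup M] {φ ψ : H G →+ M}
    (h : ∀ I J g, φ (bs I J g) = ψ (bs I J g)) : φ = ψ := by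
  apply FreeAbelianGroup.lift_ext
  rintro ⟨I, J, g⟩
  exact h I J g

theorem hyx {G : Type} (a b : Bool) (m : H G) : hy a (hx b m) = if a = b then m else 0 := by
  by_cases hab : a = b
  · subst hab
    have : (hy a).comp (hx a) = AddMonoidHom.id (H G) := by
      apply H_ext
      intro I J g
      simp [yb]
    simpa using DFunLike.congr_fun this m
  · have : (hy a).comp (hx b) = (0 : H G →+ H G) := by
      apply H_ext
      intro I J g
      simp [yb, hab]
    simpa [hab] using DFunLike.congr_fun this m

theorem bs_eq {G : Type} (I J : List Bool) (g : G) : bs I J g = wd hx I (wd hy J (gen g)) := by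
  induction I with
  | nil =>
    induction J with
    | nil => rfl
    | cons b J ih =>
      rw [wd_nil, wd_cons] at *
      rw [← ih, hy_bs]
      rfl
  | cons b I ih =>
    rw [wd_cons, ← ih, hx_bs]

section lft
variable {M : Type} [AddCommGroup M] (x y : Bool → M →+ M)

/-- the homomorphism given by the images of the generators -/
noncomputable def lft {G : Type} (f : G → M) : H G →+ M :=
  FreeAbelianGroup.lift (fun t => wd x t.1 (wd y t.2.1 (f t.2.2)))

@[simp] theorem lft_bs {G : Type} (f : G → M) (I J : List Bool) (g : G) :
    lft x y f (bs I J g) = wd x I (wd y J (f g)) := by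
  simp [lft, bs]

@[simp] theorem lft_gen {G : Type} (f : G → M) (g : G) : lft x y f (gen g) = f g := by
  simp [gen]

theorem lft_hx {G : Type} (f : G → M) (b : Bool) (m : H G) :
    lft x y f (hx b m) = x b (lft x y f m) := by
  have : (lft x y f).comp (hx b) = (x b).comp (lft x y f) := by
    apply H_ext
    intro I J g
    simp
  exact DFunLike.congr_fun this m

theorem lft_hy (hM : ∀ a b m, y a (x b m) = if a = b then m else 0) {G : Type} (f : G → M)
    (b : Bool) (m : H G) : lft x y f (hy b m) = y b (lft x y f m) := by
  have : (lft x y f).comp (hy b) = (y b).comp (lft x y f) := by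
    apply H_ext
    intro I J g
    cases I with
    | nil => simp [yb]
    | cons a I =>
      by_cases hab : b = a
      · subst hab
        simp [yb, hM]
      · simp [yb, hM, hab]
  exact DFunLike.congr_fun this m

theorem lft_unique {G : Type} (f : G → M) (φ : H G →+ M) (h1 : ∀ b m, φ (hx b m) = x b (φ m))
    (h2 : ∀ b m, φ (hy b m) = y b (φ m)) (h3 : ∀ g, φ (gen g) = f g) : φ = lft x y f := by
  apply H_ext
  intro I J g
  rw [bs_eq]
  have e1 : ∀ (I : List Bool) (m : H G), φ (wd hx I m) = wd x I (φ m) := by
    intro I m
    induction I with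
    | nil => rfl
    | cons b I ih => simp [h1, ih]
  have e2 : ∀ (I : List Bool) (m : H G), φ (wd hy I m) = wd y I (φ m) := by
    intro I m
    induction I with
    | nil => rfl
    | cons b I ih => simp [h2, ih]
  rw [e1, e2, h3, ← bs_eq, lft_bs]

end lft

/-- the homomorphism between free modules given by the images of the generators -/
noncomputable def mp {G G' : Type} (f : G → H G') : H G →+ H G' := lft hx hy f

/-- homomorphisms of modules between free modules -/
def IsM {G G' : Type} (φ : H G →+ H G') : Prop :=
  (∀ b m, φ (hx b m) = hx b (φ m)) ∧ (∀ b m, φ (hy b m) = hy b (φ m))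

theorem isM_mp {G G' : Type} (f : G → H G') : IsM (mp f) :=
  ⟨lft_hx hx hy f, lft_hy hx hy hyx f⟩

@[simp] theorem mp_gen {G G' : Type} (f : G → H G') (g : G) : mp f (gen g) = f g := lft_gen _ _ _ _

theorem IsM.comp {G G' G'' : Type} {φ : H G' →+ H G''} {ψ : H G →+ H G'} (h1 : IsM φ)
    (h2 : IsM ψ) : IsM (φ.comp ψ) :=
  ⟨fun b m => by simp [h2.1, h1.1], fun b m => by simp [h2.2, h1.2]⟩

theorem isM_id {G : Type} : IsM (AddMonoidHom.id (H G)) := ⟨fun _ _ => rfl, fun _ _ => rfl⟩

theorem IsM.ext {G G' : Type} {φ ψ : H G →+ H G'} (h1 : IsM φ) (h2 : IsM ψ)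
    (h : ∀ g, φ (gen g) = ψ (gen g)) : φ = ψ := by
  exact (lft_unique hx hy (fun g => ψ (gen g)) φ h1.1 h1.2 h).trans
    (lft_unique hx hy (fun g => ψ (gen g)) ψ h2.1 h2.2 (fun _ => rfl)).symm

theorem IsM.wdx {G G' : Type} {φ : H G →+ H G'} (h : IsM φ) (I : List Bool) (m : H G) :
    φ (wd hx I m) = wd hx I (φ m) := by
  induction I with
  | nil => rfl
  | cons b I ih => simp [h.1, ih]

theorem IsM.wdy {G G' : Type} {φ : H G →+ H G'} (h : IsM φ) (I : List Bool) (m : H G) :
    φ (wd hy I m) = wd hy I (φ m) := by
  induction I with
  | nil => rfl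
  | cons b I ih => simp [h.2, ih]

/-- the code words `1^k 0` -/
def cd (k : ℕ) : List Bool := List.replicate k true ++ [false]

theorem wd_yx {G : Type} (k l : ℕ) (m : H G) :
    wd hy (cd k).reverse (wd hx (cd l) m) = if k = l then m else 0 := by
  have key : ∀ (k l : ℕ) (m : H G), wd hy (false :: List.replicate k true)
      (wd hx (List.replicate l true ++ [false]) m) = if k = l then m else 0 := by
    intro k l
    induction l generalizing k with
    | zero =>
      intro m
      cases k with
      | zero => simp [hyx]
      | succ k =>
        have : List.replicate (k + 1) true = List.replicate k true ++ [true] := by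
          rw [List.replicate_succ']
        rw [wd_cons, this, wd_append]
        simp [hyx, wd_zero]
    | succ l ih =>
      intro m
      cases k with
      | zero =>
        simp [List.replicate_succ, hyx]
      | succ k =>
        have : List.replicate (k + 1) true = List.replicate k true ++ [true] := by
          rw [List.replicate_succ']
        rw [wd_cons, this, wd_append, List.replicate_succ, List.cons_append, wd_cons, wd_cons,
          wd_nil, hyx]
        simp only [if_true]
        rw [← wd_cons, ih k m]
        simp
  have hr : (cd k).reverse = false :: List.replicate k true := by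
    simp [cd]
  rw [hr]
  exact key k l m

end Pool.Agent.H29.ISO
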