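import Pool.Agent.H29.ISO.Free

/-!
# The trace: free modules of different ranks are not isomorphic

`tau (x_I y_J) = 1` if `J` is `I` reversed, `0` otherwise. `rm s` is the right multiplication by `s`
on the free module `H Unit` of rank one (the ring).
-/

set_option autoImplicit false

namespace Pool.Agent.H29.ISO

/-- the ring, as the free module of rank one -/
abbrev R : Type := H Unit

/-- the unit -/
noncomputable abbrev e1 : R := gen ()

/-- the trace -/
noncomputable def tau : R →+ ℤ :=
  FreeAbelianGroup.lift (fun t => if t.1 = t.2.1.reverse then 1 else 0)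

theorem tau_bs (I J : List Bool) : tau (bs I J ()) = if I = J.reverse then 1 else 0 := by
  simp [tau, bs]

theorem tau_one : tau e1 = 1 := by
  rw [e1, gen, tau_bs]
  simp

/-- right multiplication by `s` -/
noncomputable def rm (s : R) : R →+ R := mp (fun _ => s)

theorem isM_rm (s : R) : IsM (rm s) := isM_mp _

@[simp] theorem rm_one (s : R) : rm s e1 = s := mp_gen _ _

theorem rm_e1 (r : R) : rm e1 r = r := by
  have : rm e1 = AddMonoidHom.id R := (isM_rm _).ext isM_id (fun _ => by simp [rm])
  rw [this]
  rfl

theorem rm_rm (r s t : R) : rm t (rm s r) = rm (rm t s) r := by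
  have : (rm t).comp (rm s) = rm (rm t s) := by
    apply ((isM_rm t).comp (isM_rm s)).ext (isM_rm _)
    intro g
    simp only [AddMonoidHom.comp_apply]
    simp [rm]
  exact DFunLike.congr_fun this r

theorem rm_add (r s t : R) : rm (s + t) r = rm s r + rm t r := by
  have : rm (s + t) = rm s + rm t := by
    apply (isM_rm _).ext
    · refine ⟨fun b m => ?_, fun b m => ?_⟩
      · simp [(isM_rm s).1, (isM_rm t).1]
      · simp [(isM_rm s).2, (isM_rm t).2]
    · intro g
      simp [rm]
  rw [this]
  rfl

theorem rm_neg (r s : R) : rm (-s) r = -rm s r := by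
  have h := rm_add r s (-s)
  have h0 : rm 0 r = 0 := by
    have := rm_add r 0 0
    simp only [add_zero] at this
    simpa using this
  rw [add_neg_cancel, h0] at h
  exact (neg_eq_of_add_eq_zero_right h.symm).symm

/-- cyclicity for the generators `x b` -/
theorem tau_x (b : Bool) (r : R) : tau (hx b r) = tau (rm (hx b e1) r) := by
  have : tau.comp (hx b) = tau.comp (rm (hx b e1)) := by
    apply H_ext
    rintro I J ⟨⟩
    simp only [AddMonoidHom.comp_apply]
    rw [hx_bs, tau_bs, bs_eq I J, (isM_rm _).wdx, (isM_rm _).wdy]
    change _ = tau (wd hx I (wd hy J (rm (hx b e1) e1)))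
    rw [rm_one]
    rcases List.eq_nil_or_concat J with rfl | ⟨J', a, rfl⟩
    · simp only [List.reverse_nil, wd_nil]
      have : wd hx I (hx b e1) = bs (I ++ [b]) [] () := by
        rw [bs_eq, wd_append]
        rfl
      rw [this, tau_bs]
      simp
    · rw [List.concat_eq_append, wd_append, wd_cons, wd_nil, hyx]
      by_cases hab : a = b
      · subst hab
        rw [if_pos rfl, ← bs_eq, tau_bs]
        simp
      · rw [if_neg hab, wd_zero, wd_zero, map_zero, if_neg]
        simp only [List.reverse_append, List.reverse_cons, List.reverse_nil, List.nil_append,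
          List.singleton_append, List.cons.injEq, not_and]
        exact fun h => absurd h.symm hab
  exact DFunLike.congr_fun this r

/-- cyclicity for the generators `y b` -/
theorem tau_y (b : Bool) (r : R) : tau (hy b r) = tau (rm (hy b e1) r) := by
  have : tau.comp (hy b) = tau.comp (rm (hy b e1)) := by
    apply H_ext
    rintro I J ⟨⟩
    simp only [AddMonoidHom.comp_apply]
    have e : rm (hy b e1) (bs I J ()) = bs I (J ++ [b]) () := by
      rw [bs_eq I J, (isM_rm _).wdx, (isM_rm _).wdy]
      change wd hx I (wd hy J (rm (hy b e1) e1)) = _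
      rw [rm_one, bs_eq, wd_append]
      rfl
    rw [e, tau_bs, hy_bs]
    cases I with
    | nil => simp [yb, tau_bs]
    | cons a I =>
      by_cases hab : b = a
      · subst hab
        simp [yb, tau_bs]
      · simp only [yb, if_neg hab, map_zero]
        rw [if_neg]
        simp only [List.reverse_append, List.reverse_cons, List.reverse_nil, List.nil_append,
          List.singleton_append, List.cons.injEq, not_and]
        exact fun h => absurd h.symm hab
  exact DFunLike.congr_fun this r

theorem tau_comm (r s : R) : tau (rm r s) = tau (rm s r) := by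
  have hb : ∀ (I J : List Bool) (r : R), tau (rm r (wd hx I (wd hy J e1))) =
      tau (rm (wd hx I (wd hy J e1)) r) := by
    intro I
    induction I with
    | nil =>
      intro J
      induction J with
      | nil =>
        intro r
        simp only [wd_nil]
        rw [rm_e1, rm_one]
      | cons b J ih =>
        intro r
        simp only [wd_nil, wd_cons] at *
        rw [(isM_rm r).2, tau_y, rm_rm, ih, rm_rm, (isM_rm _).2, rm_one]
    | cons b I ih =>
      intro J r
      rw [wd_cons, (isM_rm r).1, tau_x, rm_rm, ih, rm_rm, (isM_rm _).1, rm_one]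
  induction s using FreeAbelianGroup.induction_on with
  | zero =>
    have h0 : rm 0 r = 0 := by
      have := rm_add r 0 0
      simp only [add_zero] at this
      simpa using this
    rw [h0, map_zero]
  | of t =>
    obtain ⟨I, J, ⟨⟩⟩ := t
    have : (FreeAbelianGroup.of (I, J, ()) : R) = wd hx I (wd hy J e1) := bs_eq I J ()
    rw [this]
    exact hb I J r
  | neg t ih =>
    rw [map_neg, rm_neg, map_neg, map_neg, ih]
  | add s t h1 h2 =>
    rw [map_add, rm_add, map_add, map_add, h1, h2]

/-- coordinates -/
noncomputable def pr {n : ℕ} (l : Fin n) : H (Fin n) →+ R := mp (fun k => if k = l then e1 else 0)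

noncomputable def inj {n : ℕ} (l : Fin n) : R →+ H (Fin n) := mp (fun _ => gen l)

theorem sum_inj {n : ℕ} (m : H (Fin n)) : m = ∑ l, inj l (pr l m) := by
  have : AddMonoidHom.id (H (Fin n)) = ∑ l, (inj l).comp (pr l) := by
    apply isM_id.ext
    · refine ⟨fun b m => ?_, fun b m => ?_⟩
      · simp only [AddMonoidHom.finsetSum_apply, AddMonoidHom.comp_apply, map_sum]
        exact Finset.sum_congr rfl (fun l _ => by
          rw [pr, inj, (isM_mp _).1, (isM_mp _).1])
      · simp only [AddMonoidHom.finsetSum_apply, AddMonoidHom.comp_apply, map_sum]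
        exact Finset.sum_congr rfl (fun l _ => by
          rw [pr, inj, (isM_mp _).2, (isM_mp _).2])
    · intro k
      simp only [AddMonoidHom.id_apply, AddMonoidHom.finsetSum_apply, AddMonoidHom.comp_apply]
      rw [Finset.sum_eq_single k]
      · simp [pr, inj]
      · intro l _ hl
        simp [pr, inj, Ne.symm hl]
      · simp
  have h := DFunLike.congr_fun this m
  simpa only [AddMonoidHom.id_apply, AddMonoidHom.finsetSum_apply, AddMonoidHom.comp_apply] using h

/-- half of the comparison of traces -/
theorem sum_tau {m n : ℕ} (φ : H (Fin m) →+ H (Fin n)) (ψ : H (Fin n) →+ H (Fin m))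
    (h2 : IsM ψ) (h : ∀ z, ψ (φ z) = z) :
    ∑ k, ∑ l, tau (rm (pr k (ψ (gen l))) (pr l (φ (gen k)))) = m := by
  have : ∀ k, ∑ l, tau (rm (pr k (ψ (gen l))) (pr l (φ (gen k)))) = 1 := by
    intro k
    have e : ∀ l, rm (pr k (ψ (gen l))) = (pr k).comp (ψ.comp (inj l)) := by
      intro l
      apply (isM_rm _).ext ((isM_mp _).comp (h2.comp (isM_mp _)))
      intro g
      simp only [rm, mp_gen, AddMonoidHom.comp_apply]
      rfl
    simp only [e]
    have e2 : ∑ l, ((pr k).comp (ψ.comp (inj l))) (pr l (φ (gen k))) = e1 := by
      have : e1 = pr k (ψ (φ (gen k))) := by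
        rw [h]
        simp [pr]
      conv_rhs => rw [this, sum_inj (φ (gen k))]
      simp only [map_sum, AddMonoidHom.comp_apply]
    rw [← map_sum, e2, tau_one]
  rw [Finset.sum_congr rfl (fun k _ => this k)]
  simp

theorem rank_eq {m n : ℕ} (φ : H (Fin m) →+ H (Fin n)) (ψ : H (Fin n) →+ H (Fin m))
    (h1 : IsM φ) (h2 : IsM ψ) (h : ∀ z, ψ (φ z) = z) (h' : ∀ z, φ (ψ z) = z) : m = n := by
  have a := sum_tau φ ψ h2 h
  have b := sum_tau ψ φ h1 h'
  rw [Finset.sum_comm] at b
  have : (m : ℤ) = n := by
    rw [← a, ← b]
    exact Finset.sum_congr rfl (fun k _ => Finset.sum_congr rfl (fun l _ => tau_comm _ _))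
  exact_mod_cast this

end Pool.Agent.H29.ISO
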