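import Pool.Agent.H29.ISO.QE
import Pool.Agent.H29.ISO.Trace
import Pool.Agent.H87.Isotypic.Defs

/-!
# The variety, its free algebras, and the types realised in them

Signature: `0`, `+`, `-` and four unary operations `x_b`, `y_b` (`b` a boolean). Identities: those of
abelian groups, additivity of the four unary operations, `y_a (x_b u) = u` if `a = b`, `= 0` if not.
-/

set_option autoImplicit false

open FirstOrder FirstOrder.Language

namespace Pool.Agent.H29.ISO

open Pool.Agent.H87.Isotypic

/-- the operation symbols -/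
inductive Op : ℕ → Type
  | zero : Op 0
  | add : Op 2
  | neg : Op 1
  | x (b : Bool) : Op 1
  | y (b : Bool) : Op 1

/-- the signature -/
abbrev Lm : FirstOrder.Language.{0, 0} := ⟨Op, fun _ => Empty⟩

instance : Lm.IsAlgebraic := fun _ => (inferInstance : IsEmpty Empty)

theorem finite_Op : Finite (Σ n, Lm.Functions n) := by
  let f : Fin 3 ⊕ (Bool ⊕ Bool) → (Σ n, Lm.Functions n) := fun t =>
    match t with
    | .inl 0 => ⟨0, (Op.zero : Op 0)⟩
    | .inl 1 => ⟨2, (Op.add : Op 2)⟩
    | .inl 2 => ⟨1, (Op.neg : Op 1)⟩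
    | .inr (.inl b) => ⟨1, (Op.x b : Op 1)⟩
    | .inr (.inr b) => ⟨1, (Op.y b : Op 1)⟩
  apply Finite.of_surjective f
  rintro ⟨n, s⟩
  cases s with
  | zero => exact ⟨.inl 0, rfl⟩
  | add => exact ⟨.inl 1, rfl⟩
  | neg => exact ⟨.inl 2, rfl⟩
  | x b => exact ⟨.inr (.inl b), rfl⟩
  | y b => exact ⟨.inr (.inr b), rfl⟩

/-! ### Terms and identities -/

abbrev Tm : Type := Lm.Term ℕ

def tz : Tm := Term.func (Op.zero : Op 0) ![]
def ta (s t : Tm) : Tm := Term.func (Op.add : Op 2) ![s, t]
def tn (s : Tm) : Tm := Term.func (Op.neg : Op 1) ![s]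
def tx (b : Bool) (s : Tm) : Tm := Term.func (Op.x b : Op 1) ![s]
def ty (b : Bool) (s : Tm) : Tm := Term.func (Op.y b : Op 1) ![s]
def vr (k : ℕ) : Tm := Term.var k

/-- the identities of the variety -/
def Ids : Set (Tm × Tm) :=
  {(ta (ta (vr 0) (vr 1)) (vr 2), ta (vr 0) (ta (vr 1) (vr 2))),
    (ta (vr 0) (vr 1), ta (vr 1) (vr 0)),
    (ta tz (vr 0), vr 0),
    (ta (tn (vr 0)) (vr 0), tz)} ∪
  Set.range (fun b : Bool => (tx b (ta (vr 0) (vr 1)), ta (tx b (vr 0)) (tx b (vr 1)))) ∪
  Set.range (fun b : Bool => (ty b (ta (vr 0) (vr 1)), ta (ty b (vr 0)) (ty b (vr 1)))) ∪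
  Set.range (fun p : Bool × Bool => (ty p.1 (tx p.2 (vr 0)), if p.1 = p.2 then vr 0 else tz))

theorem Ids_finite : Ids.Finite := by
  unfold Ids
  refine ((Set.Finite.union ?_ (Set.finite_range _)).union (Set.finite_range _)).union
    (Set.finite_range _)
  simp

/-! ### Modules from algebras -/

section alg

variable {M : Type} [Lm.Structure M]

def oz (M : Type) [Lm.Structure M] : M := Structure.funMap (L := Lm) (M := M) (Op.zero : Op 0) ![]
def oa (u v : M) : M := Structure.funMap (L := Lm) (M := M) (Op.add : Op 2) ![u, v]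
def on (u : M) : M := Structure.funMap (L := Lm) (M := M) (Op.neg : Op 1) ![u]
def ox (b : Bool) (u : M) : M := Structure.funMap (L := Lm) (M := M) (Op.x b : Op 1) ![u]
def oy (b : Bool) (u : M) : M := Structure.funMap (L := Lm) (M := M) (Op.y b : Op 1) ![u]

theorem r_tz (v : ℕ → M) : tz.realize v = oz M := by
  unfold tz oz
  rw [Term.realize_func]
  congr 1
  exact Subsingleton.elim _ _

theorem r_ta (v : ℕ → M) (s t : Tm) : (ta s t).realize v = oa (s.realize v) (t.realize v) := by
  unfold ta oa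
  rw [Term.realize_func]
  congr 1
  funext i
  fin_cases i <;> rfl

theorem r_tn (v : ℕ → M) (s : Tm) : (tn s).realize v = on (s.realize v) := by
  unfold tn on
  rw [Term.realize_func]
  congr 1
  funext i
  fin_cases i
  rfl

theorem r_tx (v : ℕ → M) (b : Bool) (s : Tm) : (tx b s).realize v = ox b (s.realize v) := by
  unfold tx ox
  rw [Term.realize_func]
  congr 1
  funext i
  fin_cases i
  rfl

theorem r_ty (v : ℕ → M) (b : Bool) (s : Tm) : (ty b s).realize v = oy b (s.realize v) := by
  unfold ty oy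
  rw [Term.realize_func]
  congr 1
  funext i
  fin_cases i
  rfl

theorem r_vr (v : ℕ → M) (k : ℕ) : (vr k).realize v = v k := rfl

/-- the identities, written out -/
structure Mod (M : Type) [Lm.Structure M] : Prop where
  assoc : ∀ u v w : M, oa (oa u v) w = oa u (oa v w)
  comm : ∀ u v : M, oa u v = oa v u
  zero : ∀ u : M, oa (oz M) u = u
  neg : ∀ u : M, oa (on u) u = oz M
  xa : ∀ b (u v : M), ox b (oa u v) = oa (ox b u) (ox b v)
  ya : ∀ b (u v : M), oy b (oa u v) = oa (oy b u) (oy b v)
  yx : ∀ a b (u : M), oy a (ox b u) = if a = b then u else oz M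

theorem satisfies_iff : Satisfies Lm Ids M ↔ Mod M := by
  constructor
  · intro h
    refine ⟨fun u v w => ?_, fun u v => ?_, fun u => ?_, fun u => ?_, fun b u v => ?_,
      fun b u v => ?_, fun a b u => ?_⟩
    · have := h (ta (ta (vr 0) (vr 1)) (vr 2), ta (vr 0) (ta (vr 1) (vr 2)))
        (by simp [Ids]) (fun k => if k = 0 then u else if k = 1 then v else w)
      simpa [r_ta, r_vr] using this
    · have := h (ta (vr 0) (vr 1), ta (vr 1) (vr 0))
        (by simp [Ids]) (fun k => if k = 0 then u else v)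
      simpa [r_ta, r_vr] using this
    · have := h (ta tz (vr 0), vr 0) (by simp [Ids]) (fun _ => u)
      simpa [r_ta, r_vr, r_tz] using this
    · have := h (ta (tn (vr 0)) (vr 0), tz) (by simp [Ids]) (fun _ => u)
      simpa [r_ta, r_vr, r_tz, r_tn] using this
    · have := h (tx b (ta (vr 0) (vr 1)), ta (tx b (vr 0)) (tx b (vr 1)))
        (Or.inl (Or.inl (Or.inr ⟨b, rfl⟩))) (fun k => if k = 0 then u else v)
      simpa [r_ta, r_vr, r_tx] using this
    · have := h (ty b (ta (vr 0) (vr 1)), ta (ty b (vr 0)) (ty b (vr 1)))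
        (Or.inl (Or.inr ⟨b, rfl⟩)) (fun k => if k = 0 then u else v)
      simpa [r_ta, r_vr, r_ty] using this
    · have := h (ty a (tx b (vr 0)), if a = b then vr 0 else tz)
        (Or.inr ⟨(a, b), rfl⟩) (fun _ => u)
      by_cases hab : a = b
      · simpa [r_ty, r_vr, r_tx, hab] using this
      · simpa [r_ty, r_vr, r_tx, r_tz, hab] using this
  · intro h e he v
    rcases he with ((he | ⟨b, rfl⟩) | ⟨b, rfl⟩) | ⟨⟨a, b⟩, rfl⟩
    · simp only [Set.mem_insert_iff, Set.mem_singleton_iff] at he
      rcases he with rfl | rfl | rfl | rfl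
      · simp only [r_ta, r_vr]
        exact h.assoc _ _ _
      · simp only [r_ta, r_vr]
        exact h.comm _ _
      · simp only [r_ta, r_vr, r_tz]
        exact h.zero _
      · simp only [r_ta, r_vr, r_tz, r_tn]
        exact h.neg _
    · simp only [r_ta, r_vr, r_tx]
      exact h.xa _ _ _
    · simp only [r_ta, r_vr, r_ty]
      exact h.ya _ _ _
    · simp only [r_ty, r_tx, r_vr]
      rw [h.yx]
      split
      · simp [r_vr]
      · simp [r_tz]

/-- the group of an algebra of the variety -/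
@[reducible] def grp (h : Mod M) : AddCommGroup M :=
  letI : Add M := ⟨oa⟩
  letI : Zero M := ⟨oz M⟩
  letI : Neg M := ⟨on⟩
  { AddGroup.ofLeftAxioms (G := M) h.assoc h.zero h.neg with add_comm := h.comm }

end alg

/-! ### The free modules as algebras -/

/-- the operations of the free module -/
noncomputable def fm {G : Type} : {n : ℕ} → Op n → (Fin n → H G) → H G
  | _, .zero, _ => 0
  | _, .add, v => v 0 + v 1
  | _, .neg, v => -v 0
  | _, .x b, v => hx b (v 0)
  | _, .y b, v => hy b (v 0)

noncomputable instance instH {G : Type} : Lm.Structure (H G) where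
  funMap := fun {_} f v => fm f v
  RelMap := fun {_} r _ => r.elim

theorem oz_H {G : Type} : oz (H G) = 0 := rfl
theorem oa_H {G : Type} (u v : H G) : oa u v = u + v := rfl
theorem on_H {G : Type} (u : H G) : on u = -u := rfl
theorem ox_H {G : Type} (b : Bool) (u : H G) : ox b u = hx b u := rfl
theorem oy_H {G : Type} (b : Bool) (u : H G) : oy b u = hy b u := rfl

theorem mod_H {G : Type} : Mod (H G) where
  assoc := fun u v w => by simp only [oa_H, add_assoc]
  comm := fun u v => by simp only [oa_H, add_comm]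
  zero := fun u => by simp only [oa_H, oz_H, zero_add]
  neg := fun u => by simp only [oa_H, oz_H, on_H, neg_add_cancel]
  xa := fun b u v => by simp only [oa_H, ox_H, map_add]
  ya := fun b u v => by simp only [oa_H, oy_H, map_add]
  yx := fun a b u => by simp only [oy_H, ox_H, oz_H, hyx]

/-- homomorphisms between algebras, in terms of the five kinds of operations -/
theorem hom_of {A B : Type} [Lm.Structure A] [Lm.Structure B] (φ : A → B)
    (h0 : φ (oz A) = oz B) (h1 : ∀ u v, φ (oa u v) = oa (φ u) (φ v)) (h2 : ∀ u, φ (on u) = on (φ u))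
    (h3 : ∀ b u, φ (ox b u) = ox b (φ u)) (h4 : ∀ b u, φ (oy b u) = oy b (φ u)) :
    ∀ (n : ℕ) (f : Lm.Functions n) (v : Fin n → A),
      φ (Structure.funMap f v) = Structure.funMap f (φ ∘ v) := by
  intro n f v
  cases f with
  | zero =>
    have e1 : v = ![] := Subsingleton.elim _ _
    have e2 : φ ∘ v = ![] := Subsingleton.elim _ _
    rw [e2, e1]
    exact h0
  | add =>
    have e1 : v = ![v 0, v 1] := by
      funext i
      fin_cases i <;> rfl
    have e2 : φ ∘ v = ![φ (v 0), φ (v 1)] := by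
      funext i
      fin_cases i <;> rfl
    rw [e2]
    conv_lhs => rw [e1]
    exact h1 _ _
  | neg =>
    have e1 : v = ![v 0] := by
      funext i
      fin_cases i
      rfl
    have e2 : φ ∘ v = ![φ (v 0)] := by
      funext i
      fin_cases i
      rfl
    rw [e2]
    conv_lhs => rw [e1]
    exact h2 _
  | x b =>
    have e1 : v = ![v 0] := by
      funext i
      fin_cases i
      rfl
    have e2 : φ ∘ v = ![φ (v 0)] := by
      funext i
      fin_cases i
      rfl
    rw [e2]
    conv_lhs => rw [e1]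
    exact h3 b _
  | y b =>
    have e1 : v = ![v 0] := by
      funext i
      fin_cases i
      rfl
    have e2 : φ ∘ v = ![φ (v 0)] := by
      funext i
      fin_cases i
      rfl
    rw [e2]
    conv_lhs => rw [e1]
    exact h4 b _

theorem isH_of {G G' : Type} {φ : H G →+ H G'} (h : IsM φ) : IsH Lm φ :=
  hom_of φ (by simp only [oz_H, map_zero]) (by simp only [oa_H, map_add, implies_true])
    (by simp only [on_H, map_neg, implies_true]) (fun b u => by simp only [ox_H, h.1])
    (fun b u => by simp only [oy_H, h.2])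

section homs

variable {A B : Type} [Lm.Structure A] [Lm.Structure B] (φ : A →[Lm] B)

theorem hom_z : φ (oz A) = oz B := by
  unfold oz
  rw [Hom.map_fun]
  congr 1
  exact Subsingleton.elim _ _

theorem hom_a (u v : A) : φ (oa u v) = oa (φ u) (φ v) := by
  unfold oa
  rw [Hom.map_fun]
  congr 1
  funext i
  fin_cases i <;> rfl

theorem hom_x (b : Bool) (u : A) : φ (ox b u) = ox b (φ u) := by
  unfold ox
  rw [Hom.map_fun]
  congr 1
  funext i
  fin_cases i
  rfl

theorem hom_y (b : Bool) (u : A) : φ (oy b u) = oy b (φ u) := by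
  unfold oy
  rw [Hom.map_fun]
  congr 1
  funext i
  fin_cases i
  rfl

end homs

/-- the universal property -/
theorem isFree (n : ℕ) : IsFreeOn Lm Ids (H (Fin n)) (fun k : Fin n => gen k) := by
  refine ⟨satisfies_iff.mpr mod_H, ?_⟩
  intro M _ hM f
  have hm := satisfies_iff.mp hM
  let _ : AddCommGroup M := grp hm
  let x : Bool → M →+ M := fun b => AddMonoidHom.mk' (ox b) (fun u v => hm.xa b u v)
  let y : Bool → M →+ M := fun b => AddMonoidHom.mk' (oy b) (fun u v => hm.ya b u v)
  have hyx' : ∀ a b m, y a (x b m) = if a = b then m else 0 := fun a b m => hm.yx a b m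
  refine ⟨⟨lft x y f, fun {m} F v => ?_, fun {_} r _ => r.elim⟩, ?_, ?_⟩
  · refine hom_of (lft x y f) (map_zero _) (fun u v => map_add _ u v) (fun u => map_neg _ u)
      (fun b u => lft_hx x y f b u) (fun b u => lft_hy x y hyx' f b u) m F v
  · intro i
    exact lft_gen x y f i
  · intro ψ hψ
    let ψ' : H (Fin n) →+ M := AddMonoidHom.mk' ψ (fun u v => hom_a ψ u v)
    have h1 : ψ' = lft x y f :=
      lft_unique x y f ψ' (fun b m => hom_x ψ b m) (fun b m => hom_y ψ b m) hψ
    apply Hom.ext
    intro u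
    exact DFunLike.congr_fun h1 u

/-! ### Types -/

/-- the free modules of positive rank -/
abbrev Fam (i : ℕ) : Type := H (Fin (i + 1))

theorem retr_one (n : ℕ) : ∃ (r : H (Fin n) →+ Fam 0) (s : Fam 0 →+ H (Fin n)), IsM r ∧ IsM s ∧
    ∀ a, s (r a) = a := by
  refine ⟨mp (fun k => wd hy (cd k).reverse (gen 0)), mp (fun _ => ∑ k : Fin n, wd hx (cd k) (gen k)),
    isM_mp _, isM_mp _, fun a => ?_⟩
  have : (mp (fun _ => ∑ k : Fin n, wd hx (cd k) (gen k)) : Fam 0 →+ H (Fin n)).comp
      (mp (fun k : Fin n => wd hy (cd k).reverse (gen 0)) : H (Fin n) →+ Fam 0) =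
      AddMonoidHom.id _ := by
    apply ((isM_mp _).comp (isM_mp _)).ext isM_id
    intro k
    rw [AddMonoidHom.comp_apply, mp_gen, (isM_mp _).wdy, mp_gen]
    have hs : wd hy (cd k).reverse (∑ l : Fin n, wd hx (cd l) (gen l : H (Fin n))) =
        ∑ l : Fin n, wd hy (cd k).reverse (wd hx (cd l) (gen l)) := by
      generalize (cd (k : ℕ)).reverse = I
      induction I with
      | nil => rfl
      | cons b I ih => simp only [wd_cons, ih, map_sum]
    rw [hs, Finset.sum_eq_single k]
    · rw [wd_yx, if_pos rfl]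
      rfl
    · intro l _ hl
      rw [wd_yx, if_neg]
      intro h
      exact hl (Fin.ext h.symm)
    · simp
  exact DFunLike.congr_fun this a

theorem one_retr (i : ℕ) : ∃ (r : Fam 0 →+ Fam i) (s : Fam i →+ Fam 0), IsM r ∧ IsM s ∧
    ∀ a, s (r a) = a := by
  refine ⟨mp (fun _ => gen 0), mp (fun _ => gen 0), isM_mp _, isM_mp _, fun a => ?_⟩
  have : (mp (fun _ => gen 0) : Fam i →+ Fam 0).comp (mp (fun _ => gen 0) : Fam 0 →+ Fam i) =
      AddMonoidHom.id _ := by
    apply ((isM_mp _).comp (isM_mp _)).ext isM_id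
    intro k
    have hk : k = 0 := Fin.ext (by
      have := k.2
      simp only [Fin.val_zero]
      omega)
    rw [AddMonoidHom.comp_apply, mp_gen, mp_gen, AddMonoidHom.id_apply, hk]
  exact DFunLike.congr_fun this a

theorem fam_retr (i j : ℕ) : ∃ (r : Fam i →+ Fam j) (s : Fam j →+ Fam i), IsM r ∧ IsM s ∧
    ∀ a, s (r a) = a := by
  obtain ⟨r, s, hr, hs, h⟩ := retr_one (i + 1)
  obtain ⟨r', s', hr', hs', h'⟩ := one_retr j
  exact ⟨r'.comp r, s.comp s', hr'.comp hr, hs.comp hs', fun a => by simp [h, h']⟩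

theorem good : Good Lm Fam where
  ops := by
    intro i n f v w
    cases f with
    | zero => exact (add_zero (0 : Fam i)).symm
    | add => exact add_add_add_comm (v 0) (w 0) (v 1) (w 1)
    | neg => exact neg_add (v 0) (w 0)
    | x b => exact map_add (hx b) (v 0) (w 0)
    | y b => exact map_add (hy b) (v 0) (w 0)
  retr := by
    intro i j
    obtain ⟨r, s, hr, hs, h⟩ := fam_retr i j
    exact ⟨r, s, isH_of hr, isH_of hs, h⟩
  split := by
    intro i
    refine ⟨fun k => mp (fun t => wd hy (cd k).reverse (gen t)),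
      fun k => mp (fun t => wd hx (cd k) (gen t)), fun k => isH_of (isM_mp _),
      fun k => isH_of (isM_mp _), fun k l a => ?_⟩
    by_cases hkl : k = l
    · subst hkl
      rw [if_pos rfl]
      have : (mp (fun t => wd hx (cd k) (gen t)) : Fam i →+ Fam i).comp
          (mp (fun t => wd hy (cd k).reverse (gen t)) : Fam i →+ Fam i) = AddMonoidHom.id _ := by
        apply ((isM_mp _).comp (isM_mp _)).ext isM_id
        intro t
        rw [AddMonoidHom.comp_apply, mp_gen, (isM_mp _).wdy, mp_gen, wd_yx, if_pos rfl]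
        rfl
      exact DFunLike.congr_fun this a
    · rw [if_neg hkl]
      have : (mp (fun t => wd hx (cd k) (gen t)) : Fam i →+ Fam i).comp
          (mp (fun t => wd hy (cd l).reverse (gen t)) : Fam i →+ Fam i) = 0 := by
        apply ((isM_mp _).comp (isM_mp _)).ext
        · exact ⟨fun _ _ => by simp, fun _ _ => by simp⟩
        intro t
        rw [AddMonoidHom.comp_apply, mp_gen, (isM_mp _).wdy, mp_gen, wd_yx, if_neg (Ne.symm hkl)]
        rfl
      exact DFunLike.congr_fun this a

theorem lker_map {i j : ℕ} (r : Fam i →+ Fam j) (s : Fam j →+ Fam i) (hr : IsM r) (hs : IsM s)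
    (h : ∀ a, s (r a) = a) {n : ℕ} (μ : Fin n → Fam i) :
    LKer Lm μ = LKer Lm (r ∘ μ) := by
  ext θ
  exact same_type good r s (isH_of hr) (isH_of hs) h μ θ

theorem isotypic (i j : ℕ) : Isotypic Lm (Fam i) (Fam j) := by
  intro n
  apply Set.Subset.antisymm
  · rintro _ ⟨μ, rfl⟩
    obtain ⟨r, s, hr, hs, h⟩ := fam_retr i j
    exact ⟨r ∘ μ, (lker_map r s hr hs h μ).symm⟩
  · rintro _ ⟨μ, rfl⟩
    obtain ⟨r, s, hr, hs, h⟩ := fam_retr j i
    exact ⟨r ∘ μ, (lker_map r s hr hs h μ).symm⟩

theorem not_iso {m n : ℕ} (hmn : m ≠ n) : IsEmpty (H (Fin m) ≃[Lm] H (Fin n)) := by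
  refine ⟨fun σ => hmn ?_⟩
  let φ : H (Fin m) →+ H (Fin n) :=
    AddMonoidHom.mk' σ.toHom (fun u v => hom_a σ.toHom u v)
  let ψ : H (Fin n) →+ H (Fin m) :=
    AddMonoidHom.mk' σ.symm.toHom (fun u v => hom_a σ.symm.toHom u v)
  refine rank_eq φ ψ ⟨fun b u => hom_x σ.toHom b u, fun b u => hom_y σ.toHom b u⟩
    ⟨fun b u => hom_x σ.symm.toHom b u, fun b u => hom_y σ.symm.toHom b u⟩ ?_ ?_
  · intro z
    exact σ.symm_apply_apply z
  · intro z
    exact σ.apply_symm_apply z

end Pool.Agent.H29.ISO
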