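import Pool.Agent.H29.ISO.Lang

/-!
# Equal-type points that are not conjugate, for all pairs of positive ranks
-/

set_option autoImplicit false

open FirstOrder FirstOrder.Language

namespace Pool.Agent.H29.ISO

open Pool.Agent.H87.Isotypic

theorem gen_ne {n : ℕ} (k : Fin n) : (gen k : H (Fin n)) ≠ 0 := by
  intro h
  have h1 : tau (pr k (gen k)) = 1 := by
    rw [pr, mp_gen, if_pos rfl, tau_one]
  rw [h, map_zero, map_zero] at h1
  exact zero_ne_one h1

theorem points (m n : ℕ) (hm : 1 ≤ m) (hn : 1 ≤ n) : ∃ ν : Fin m → H (Fin n),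
    LKer Lm (fun k : Fin m => (gen k : H (Fin m))) = LKer Lm ν ∧
      ¬ ∃ σ : H (Fin m) ≃[Lm] H (Fin n), ∀ i, σ (gen i) = ν i := by
  obtain ⟨m, rfl⟩ : ∃ k, m = k + 1 := ⟨m - 1, by omega⟩
  obtain ⟨n, rfl⟩ : ∃ k, n = k + 1 := ⟨n - 1, by omega⟩
  by_cases hmn : m = n
  · subst hmn
    let F : Fam m →+ Fam m := mp (fun t => wd hy (cd 0).reverse (gen t))
    let G : ℕ → (Fam m →+ Fam m) := fun k => mp (fun t => wd hx (cd k) (gen t))
    have hGF : ∀ k, (G k).comp F = if 0 = k then AddMonoidHom.id _ else 0 := by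
      intro k
      apply ((isM_mp _).comp (isM_mp _)).ext
      · split
        · exact isM_id
        · exact ⟨fun _ _ => by simp, fun _ _ => by simp⟩
      · intro t
        rw [AddMonoidHom.comp_apply, mp_gen, (isM_mp _).wdy, mp_gen, wd_yx]
        split <;> rfl
    refine ⟨fun k => F (gen k), ?_, ?_⟩
    · refine lker_map F (G 0) (isM_mp _) (isM_mp _) (fun a => ?_) _
      have := DFunLike.congr_fun (hGF 0) a
      simpa using this
    · rintro ⟨σ, hσ⟩
      let φ : Fam m →+ Fam m := AddMonoidHom.mk' σ.toHom (fun u v => hom_a σ.toHom u v)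
      have h1 : φ = F := by
        refine IsM.ext ⟨fun b u => hom_x σ.toHom b u, fun b u => hom_y σ.toHom b u⟩
          (isM_mp _) (fun g => ?_)
        exact hσ g
      have h2 : Function.Surjective F := by
        rw [← h1]
        intro z
        exact ⟨σ.symm z, σ.apply_symm_apply z⟩
      obtain ⟨z, hz⟩ := h2 (gen 0)
      have h3 := DFunLike.congr_fun (hGF 1) z
      rw [AddMonoidHom.comp_apply, hz] at h3
      have h4 : G 1 (gen 0) = wd hx (cd 1) (gen 0) := mp_gen _ _
      have h5 : wd hx (cd 1) (gen 0 : Fam m) = 0 := by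
        rw [← h4, h3]
        simp
      have h6 : wd hy (cd 1).reverse (wd hx (cd 1) (gen 0 : Fam m)) = gen 0 := by
        rw [wd_yx, if_pos rfl]
      rw [h5, wd_zero] at h6
      exact gen_ne _ h6.symm
  · obtain ⟨r, s, hr, hs, h⟩ := fam_retr m n
    refine ⟨fun k => r (gen k), lker_map r s hr hs h _, ?_⟩
    rintro ⟨σ, -⟩
    exact (not_iso (by omega : m + 1 ≠ n + 1)).false σ

end Pool.Agent.H29.ISO
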