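import Mathlib

/-!
# Types in a family of modules

`M i` (`i` in an index type) are abelian groups with additive operations. If each `M i` is a retract
of each `M j` and has infinitely many endomorphisms `f k` with left inverses `g k` such that
`g k (f l a) = 0` for `k ≠ l`, then the truth value of a first-order formula at a tuple of `M i`
depends only on finitely many *natural families* of subgroups of the groups of tuples. So a
split monomorphism `M i → M j` preserves the complete types of tuples.
-/

set_option autoImplicit false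

open FirstOrder FirstOrder.Language
open scoped Pointwise

namespace Pool.Agent.H29.ISO

/-- an additive map that commutes with all operations -/
def IsH (L : FirstOrder.Language.{0, 0}) {A B : Type} [AddCommGroup A] [AddCommGroup B]
    [L.Structure A] [L.Structure B] (h : A →+ B) : Prop :=
  ∀ (n : ℕ) (f : L.Functions n) (v : Fin n → A),
    h (Structure.funMap f v) = Structure.funMap f (h ∘ v)

section

variable {L : FirstOrder.Language.{0, 0}} {ι : Type} (M : ι → Type)
  [∀ i, AddCommGroup (M i)] [∀ i, L.Structure (M i)]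

/-- the operations are additive -/
def AddOps (L : FirstOrder.Language.{0, 0}) {ι : Type} (M : ι → Type)
    [∀ i, AddCommGroup (M i)] [∀ i, L.Structure (M i)] : Prop :=
  ∀ (i : ι) (n : ℕ) (f : L.Functions n) (v w : Fin n → M i),
    (Structure.funMap f (v + w) : M i) = Structure.funMap f v + Structure.funMap f w

/-- a natural family of subgroups of the groups of tuples -/
structure NF (L : FirstOrder.Language.{0, 0}) {ι : Type} (M : ι → Type)
    [∀ i, AddCommGroup (M i)] [∀ i, L.Structure (M i)] (α : Type) (n : ℕ) where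
  S : ∀ i, AddSubgroup ((α → M i) × (Fin n → M i))
  nat : ∀ (i j : ι) (h : M i →+ M j), IsH L h → ∀ (v : α → M i) (xs : Fin n → M i),
    (v, xs) ∈ S i → (h ∘ v, h ∘ xs) ∈ S j

variable {M}

theorem snoc_add {A : Type} [AddCommGroup A] {n : ℕ} (xs ys : Fin n → A) (a b : A) :
    (Fin.snoc (xs + ys) (a + b) : Fin (n + 1) → A) = Fin.snoc xs a + Fin.snoc ys b := by
  funext i
  refine Fin.lastCases ?_ (fun i => ?_) i
  · simp
  · simp

theorem snoc_neg {A : Type} [AddCommGroup A] {n : ℕ} (xs : Fin n → A) (a : A) :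
    (Fin.snoc (-xs) (-a) : Fin (n + 1) → A) = -Fin.snoc xs a := by
  funext i
  refine Fin.lastCases ?_ (fun i => ?_) i
  · simp
  · simp

theorem snoc_zero {A : Type} [AddCommGroup A] {n : ℕ} :
    (Fin.snoc (0 : Fin n → A) (0 : A) : Fin (n + 1) → A) = 0 := by
  funext i
  refine Fin.lastCases ?_ (fun i => ?_) i
  · simp
  · simp

theorem comp_snoc {A B : Type} {n : ℕ} (h : A → B) (xs : Fin n → A) (a : A) :
    h ∘ (Fin.snoc xs a : Fin (n + 1) → A) = Fin.snoc (h ∘ xs) (h a) := by
  funext i
  refine Fin.lastCases ?_ (fun i => ?_) i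
  · simp
  · simp

/-- intersection of a set of families -/
def NF.inf {α : Type} {n : ℕ} (F : Set (NF L M α n)) : NF L M α n where
  S i := ⨅ T ∈ F, T.S i
  nat i j h hh v xs hv := by
    simp only [AddSubgroup.mem_iInf] at hv ⊢
    exact fun T hT => T.nat i j h hh v xs (hv T hT)

theorem NF.mem_inf {α : Type} {n : ℕ} (F : Set (NF L M α n)) (i : ι)
    (p : (α → M i) × (Fin n → M i)) : p ∈ (NF.inf F).S i ↔ ∀ T ∈ F, p ∈ T.S i := by
  simp only [NF.inf, AddSubgroup.mem_iInf]

/-- projection along the last variable -/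
def NF.proj {α : Type} {n : ℕ} (T : NF L M α (n + 1)) : NF L M α n where
  S i :=
    { carrier := {p | ∃ a, (p.1, (Fin.snoc p.2 a : Fin (n + 1) → M i)) ∈ T.S i}
      zero_mem' := ⟨0, by
        simp only [Prod.fst_zero, Prod.snd_zero, snoc_zero]
        exact (T.S i).zero_mem⟩
      add_mem' := by
        rintro p q ⟨a, ha⟩ ⟨b, hb⟩
        refine ⟨a + b, ?_⟩
        have := (T.S i).add_mem ha hb
        rw [Prod.mk_add_mk, ← snoc_add] at this
        exact this
      neg_mem' := by
        rintro p ⟨a, ha⟩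
        refine ⟨-a, ?_⟩
        have := (T.S i).neg_mem ha
        rw [Prod.neg_mk, ← snoc_neg] at this
        exact this }
  nat i j h hh v xs hv := by
    obtain ⟨a, ha⟩ := hv
    refine ⟨h a, ?_⟩
    have := T.nat i j h hh _ _ ha
    rw [comp_snoc] at this
    exact this

theorem NF.mem_proj {α : Type} {n : ℕ} (T : NF L M α (n + 1)) (i : ι) (v : α → M i)
    (xs : Fin n → M i) : (v, xs) ∈ T.proj.S i ↔
      ∃ a, (v, (Fin.snoc xs a : Fin (n + 1) → M i)) ∈ T.S i := Iff.rfl

/-- the vertical subgroup -/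
def NF.vert {α : Type} {n : ℕ} (T : NF L M α (n + 1)) (i : ι) : AddSubgroup (M i) where
  carrier := {a | ((0 : α → M i), (Fin.snoc (0 : Fin n → M i) a : Fin (n + 1) → M i)) ∈ T.S i}
  zero_mem' := by
    simp only [Set.mem_ofPred_eq, snoc_zero]
    exact (T.S i).zero_mem
  add_mem' := by
    intro a b ha hb
    have := (T.S i).add_mem ha hb
    rw [Prod.mk_add_mk, ← snoc_add, add_zero, add_zero] at this
    exact this
  neg_mem' := by
    intro a ha
    have := (T.S i).neg_mem ha
    rw [Prod.neg_mk, ← snoc_neg, neg_zero, neg_zero] at this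
    exact this

theorem NF.mem_vert {α : Type} {n : ℕ} (T : NF L M α (n + 1)) (i : ι) (a : M i) :
    a ∈ T.vert i ↔
      ((0 : α → M i), (Fin.snoc (0 : Fin n → M i) a : Fin (n + 1) → M i)) ∈ T.S i := Iff.rfl

theorem NF.vert_map {α : Type} {n : ℕ} (T : NF L M α (n + 1)) {i j : ι} (h : M i →+ M j)
    (hh : IsH L h) {a : M i} (ha : a ∈ T.vert i) : h a ∈ T.vert j := by
  have := T.nat i j h hh _ _ ha
  rw [comp_snoc] at this
  have e1 : h ∘ (0 : α → M i) = 0 := by
    funext x
    simp
  have e2 : h ∘ (0 : Fin n → M i) = 0 := by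
    funext x
    simp
  rw [e1, e2] at this
  exact this

theorem NF.shift {α : Type} {n : ℕ} (T : NF L M α (n + 1)) {i : ι} {v : α → M i}
    {xs : Fin n → M i} {a b : M i} (ha : (v, (Fin.snoc xs a : Fin (n + 1) → M i)) ∈ T.S i) :
    (v, (Fin.snoc xs b : Fin (n + 1) → M i)) ∈ T.S i ↔ b - a ∈ T.vert i := by
  constructor
  · intro hb
    have := (T.S i).sub_mem hb ha
    rw [NF.mem_vert]
    have e : (v, (Fin.snoc xs b : Fin (n + 1) → M i)) - (v, (Fin.snoc xs a : Fin (n + 1) → M i)) =
        ((0 : α → M i), (Fin.snoc (0 : Fin n → M i) (b - a) : Fin (n + 1) → M i)) := by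
      rw [Prod.mk_sub_mk, sub_self, sub_eq_add_neg, ← snoc_neg, ← snoc_add, ← sub_eq_add_neg,
        ← sub_eq_add_neg, sub_self]
    rwa [e] at this
  · intro hb
    have := (T.S i).add_mem ha hb
    rw [Prod.mk_add_mk, ← snoc_add, add_zero, add_zero, add_sub_cancel] at this
    exact this

/-- the equality of two terms -/
def NF.eq (hadd : AddOps L M) {α : Type} {n : ℕ} (t s : L.Term (α ⊕ Fin n)) : NF L M α n where
  S i :=
    { carrier := {p | t.realize (Sum.elim p.1 p.2) = s.realize (Sum.elim p.1 p.2)}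
      zero_mem' := by
        have key : ∀ t : L.Term (α ⊕ Fin n), t.realize (0 : α ⊕ Fin n → M i) = 0 := by
          intro t
          have h2 : ∀ v w : α ⊕ Fin n → M i, t.realize (v + w) = t.realize v + t.realize w := by
            intro v w
            induction t with
            | var x => rfl
            | func f ts ih =>
              simp only [Term.realize_func]
              rw [← hadd]
              congr 1
              funext k
              exact ih k
          have := h2 0 0
          simpa using this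
        have e : Sum.elim (0 : α → M i) (0 : Fin n → M i) = 0 := by
          funext x
          cases x <;> rfl
        simp only [Set.mem_ofPred_eq, Prod.fst_zero, Prod.snd_zero, e, key]
      add_mem' := by
        have h2 : ∀ (t : L.Term (α ⊕ Fin n)) (v w : α ⊕ Fin n → M i),
            t.realize (v + w) = t.realize v + t.realize w := by
          intro t v w
          induction t with
          | var x => rfl
          | func f ts ih =>
            simp only [Term.realize_func]
            rw [← hadd]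
            congr 1
            funext k
            exact ih k
        intro p q hp hq
        have e : Sum.elim (p + q).1 (p + q).2 = Sum.elim p.1 p.2 + Sum.elim q.1 q.2 := by
          funext x
          cases x <;> rfl
        simp only [Set.mem_ofPred_eq] at hp hq ⊢
        rw [e, h2, h2, hp, hq]
      neg_mem' := by
        have h2 : ∀ (t : L.Term (α ⊕ Fin n)) (v w : α ⊕ Fin n → M i),
            t.realize (v + w) = t.realize v + t.realize w := by
          intro t v w
          induction t with
          | var x => rfl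
          | func f ts ih =>
            simp only [Term.realize_func]
            rw [← hadd]
            congr 1
            funext k
            exact ih k
        have key : ∀ t : L.Term (α ⊕ Fin n), t.realize (0 : α ⊕ Fin n → M i) = 0 := by
          intro t
          have := h2 t 0 0
          simpa using this
        have h3 : ∀ (t : L.Term (α ⊕ Fin n)) (v : α ⊕ Fin n → M i),
            t.realize (-v) = -t.realize v := by
          intro t v
          have := h2 t v (-v)
          rw [add_neg_cancel, key] at this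
          exact (neg_eq_of_add_eq_zero_right this.symm).symm
        intro p hp
        have e : Sum.elim (-p).1 (-p).2 = -Sum.elim p.1 p.2 := by
          funext x
          cases x <;> rfl
        simp only [Set.mem_ofPred_eq] at hp ⊢
        rw [e, h3, h3, hp] }
  nat i j h hh v xs hv := by
    have h2 : ∀ (t : L.Term (α ⊕ Fin n)) (v : α ⊕ Fin n → M i),
        t.realize (h ∘ v) = h (t.realize v) := by
      intro t v
      induction t with
      | var x => rfl
      | func f ts ih =>
        simp only [Term.realize_func]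
        rw [hh]
        congr 1
        funext k
        exact ih k
    have e : Sum.elim (h ∘ v) (h ∘ xs) = h ∘ Sum.elim v xs := by
      funext x
      cases x <;> rfl
    change t.realize (Sum.elim (h ∘ v) (h ∘ xs)) = s.realize (Sum.elim (h ∘ v) (h ∘ xs))
    rw [e, h2, h2]
    exact congrArg h hv

/-- the hypotheses on the family of modules -/
structure Good (L : FirstOrder.Language.{0, 0}) {ι : Type} (M : ι → Type)
    [∀ i, AddCommGroup (M i)] [∀ i, L.Structure (M i)] : Prop where
  ops : AddOps L M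
  retr : ∀ i j, ∃ (r : M i →+ M j) (s : M j →+ M i), IsH L r ∧ IsH L s ∧ ∀ a, s (r a) = a
  split : ∀ i, ∃ f g : ℕ → (M i →+ M i), (∀ k, IsH L (f k)) ∧ (∀ k, IsH L (g k)) ∧
    ∀ k l a, g k (f l a) = if k = l then a else 0

/-- an index of natural subgroups is one or infinite -/
theorem index_one (hM : Good L M) {α : Type} {n : ℕ} (P T : NF L M α (n + 1)) (i : ι)
    (hfin : ((T.vert i).addSubgroupOf (P.vert i)).FiniteIndex) : P.vert i ≤ T.vert i := by
  obtain ⟨f, g, hf, hg, hfg⟩ := hM.split i
  intro a ha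
  by_contra haT
  have hfin' : Finite (P.vert i ⧸ (T.vert i).addSubgroupOf (P.vert i)) :=
    AddSubgroup.finite_quotient_of_finiteIndex
  let u : ℕ → P.vert i ⧸ (T.vert i).addSubgroupOf (P.vert i) :=
    fun k => QuotientAddGroup.mk ⟨f k a, P.vert_map (f k) (hf k) ha⟩
  have hu : Function.Injective u := by
    intro k l hkl
    by_contra hne
    have h1 := QuotientAddGroup.eq.mp hkl
    rw [AddSubgroup.mem_addSubgroupOf] at h1
    have h2 : -f k a + f l a ∈ T.vert i := h1
    have h3 := T.vert_map (g l) (hg l) h2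
    rw [map_add, map_neg, hfg, hfg, if_pos rfl, if_neg (Ne.symm hne), neg_zero, zero_add] at h3
    exact haT h3
  exact not_injective_infinite_finite u hu

/-- back and forth -/
theorem extend (hM : Good L M) {α : Type} {n : ℕ} (F : Set (NF L M α (n + 1))) (hF : F.Finite)
    {i j : ι} (v : α → M i) (xs : Fin n → M i) (v' : α → M j) (xs' : Fin n → M j)
    (h : ∀ G ⊆ F, ((v, xs) ∈ (NF.inf G).proj.S i ↔ (v', xs') ∈ (NF.inf G).proj.S j)) (b : M j) :
    ∃ a : M i, ∀ T ∈ F, ((v, (Fin.snoc xs a : Fin (n + 1) → M i)) ∈ T.S i ↔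
      (v', (Fin.snoc xs' b : Fin (n + 1) → M j)) ∈ T.S j) := by
  classical
  let G : Set (NF L M α (n + 1)) :=
    {T | T ∈ F ∧ (v', (Fin.snoc xs' b : Fin (n + 1) → M j)) ∈ T.S j}
  have hGF : G ⊆ F := fun T hT => hT.1
  have hb : (v', (Fin.snoc xs' b : Fin (n + 1) → M j)) ∈ (NF.inf G).S j := by
    rw [NF.mem_inf]
    exact fun T hT => hT.2
  obtain ⟨a0, ha0⟩ := (NF.mem_proj _ _ _ _).mp ((h G hGF).mpr ⟨b, hb⟩)
  by_contra hcon
  push Not at hcon
  -- the bad families
  let B : Finset (NF L M α (n + 1)) := (hF.subset (Set.sdiff_subset (s := F) (t := G))).toFinset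
  have hB : ∀ T, T ∈ B ↔ T ∈ F ∧ T ∉ G := by
    intro T
    simp [B]
  have hBF : ∀ T ∈ B, insert T G ⊆ F := by
    intro T hT
    exact Set.insert_subset ((hB T).mp hT).1 hGF
  have hmem : ∀ T ∈ B, ∀ k (p : (α → M k) × (Fin (n + 1) → M k)),
      p ∈ (NF.inf (insert T G)).S k ↔ p ∈ T.S k ∧ p ∈ (NF.inf G).S k := by
    intro T _ k p
    rw [NF.mem_inf, NF.mem_inf]
    simp
  let K := (NF.inf G).vert i
  -- every element of K lies in a bad set
  have hcov : ∀ c : K, ∃ T ∈ B, (v, (Fin.snoc xs (a0 + c) : Fin (n + 1) → M i)) ∈ T.S i := by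
    intro c
    have hc : (v, (Fin.snoc xs (a0 + (c : M i)) : Fin (n + 1) → M i)) ∈ (NF.inf G).S i := by
      rw [NF.shift _ ha0]
      simp only [add_sub_cancel_left]
      exact c.2
    obtain ⟨T, hT, hT'⟩ := hcon (a0 + c)
    rcases hT' with ⟨h1, h2⟩ | ⟨h1, h2⟩
    · refine ⟨T, (hB T).mpr ⟨hT, fun h3 => h2 h3.2⟩, h1⟩
    · exfalso
      exact h1 ((NF.mem_inf _ _ _).mp hc T ⟨hT, h2⟩)
  -- representatives
  have hrep : ∀ T : NF L M α (n + 1), ∃ c0 : K,
      (∃ c : K, (v, (Fin.snoc xs (a0 + c) : Fin (n + 1) → M i)) ∈ T.S i) →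
        (v, (Fin.snoc xs (a0 + c0) : Fin (n + 1) → M i)) ∈ T.S i := by
    intro T
    by_cases hc : ∃ c : K, (v, (Fin.snoc xs (a0 + c) : Fin (n + 1) → M i)) ∈ T.S i
    · exact ⟨hc.choose, fun _ => hc.choose_spec⟩
    · exact ⟨0, fun h => absurd h hc⟩
  choose c0 hc0 using hrep
  let B' : Finset (NF L M α (n + 1)) :=
    B.filter (fun T => ∃ c : K, (v, (Fin.snoc xs (a0 + c) : Fin (n + 1) → M i)) ∈ T.S i)
  have hcover : ⋃ T ∈ B', c0 T +ᵥ (((T.vert i).addSubgroupOf K : AddSubgroup K) : Set K) =
      Set.univ := by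
    rw [Set.eq_univ_iff_forall]
    intro c
    obtain ⟨T, hT, hTc⟩ := hcov c
    rw [Set.mem_iUnion₂]
    refine ⟨T, Finset.mem_filter.mpr ⟨hT, c, hTc⟩, ?_⟩
    rw [Set.mem_vadd_set_iff_neg_vadd_mem]
    simp only [SetLike.mem_coe, AddSubgroup.mem_addSubgroupOf]
    have h1 := (NF.shift T (hc0 T ⟨c, hTc⟩)).mp hTc
    have e : ((-c0 T +ᵥ c : K) : M i) = a0 + c - (a0 + c0 T) := by
      simp only [vadd_eq_add, AddSubgroup.coe_add, AddSubgroup.coe_neg]
      abel
    rw [e]
    exact h1
  obtain ⟨T, hT, hTfin⟩ := AddSubgroup.exists_finiteIndex_of_leftCoset_cover hcover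
  obtain ⟨hTB, c, hTc⟩ := Finset.mem_filter.mp hT
  have hle : (NF.inf G).vert i ≤ T.vert i := index_one hM (NF.inf G) T i hTfin
  -- transfer to j
  have hle' : (NF.inf G).vert j ≤ T.vert j := by
    obtain ⟨r, s, hr, hs, hsr⟩ := hM.retr j i
    intro d hd
    have := T.vert_map s hs (hle ((NF.inf G).vert_map r hr hd))
    rwa [hsr] at this
  have hc : (v, (Fin.snoc xs (a0 + (c : M i)) : Fin (n + 1) → M i)) ∈ (NF.inf G).S i := by
    rw [NF.shift _ ha0]
    simp only [add_sub_cancel_left]
    exact c.2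
  have h1 : (v, xs) ∈ (NF.inf (insert T G)).proj.S i :=
    ⟨a0 + c, (hmem T hTB i _).mpr ⟨hTc, hc⟩⟩
  obtain ⟨b', hb'⟩ := (NF.mem_proj _ _ _ _).mp ((h _ (hBF T hTB)).mp h1)
  have hb'' := (hmem T hTB j _).mp hb'
  have h2 : b - b' ∈ T.vert j := hle' ((NF.shift _ hb''.2).mp hb)
  have h3 := (NF.shift T hb''.1).mpr h2
  exact ((hB T).mp hTB).2 ⟨((hB T).mp hTB).1, h3⟩

/-- the truth value of a formula depends on finitely many natural families -/
theorem qe [L.IsAlgebraic] (hM : Good L M) {α : Type} {n : ℕ} (θ : L.BoundedFormula α n) :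
    ∃ F : Set (NF L M α n), F.Finite ∧ ∀ (i j : ι) (v : α → M i) (xs : Fin n → M i)
      (v' : α → M j) (xs' : Fin n → M j), (∀ T ∈ F, ((v, xs) ∈ T.S i ↔ (v', xs') ∈ T.S j)) →
        (θ.Realize v xs ↔ θ.Realize v' xs') := by
  induction θ with
  | falsum => exact ⟨∅, Set.finite_empty, fun _ _ _ _ _ _ _ => Iff.rfl⟩
  | equal t s =>
    refine ⟨{NF.eq hM.ops t s}, Set.finite_singleton _, fun i j v xs v' xs' h => ?_⟩
    exact h _ (Set.mem_singleton _)
  | rel r ts => exact isEmptyElim r
  | imp f g ihf ihg =>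
    obtain ⟨F, hF, h1⟩ := ihf
    obtain ⟨G, hG, h2⟩ := ihg
    refine ⟨F ∪ G, hF.union hG, fun i j v xs v' xs' h => ?_⟩
    rw [BoundedFormula.realize_imp, BoundedFormula.realize_imp,
      h1 i j v xs v' xs' (fun T hT => h T (Or.inl hT)),
      h2 i j v xs v' xs' (fun T hT => h T (Or.inr hT))]
  | all f ih =>
    obtain ⟨F, hF, h1⟩ := ih
    refine ⟨(fun G => (NF.inf G).proj) '' {G | G ⊆ F}, hF.finite_subsets.image _,
      fun i j v xs v' xs' h => ?_⟩
    have h' : ∀ G ⊆ F, ((v, xs) ∈ (NF.inf G).proj.S i ↔ (v', xs') ∈ (NF.inf G).proj.S j) :=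
      fun G hG => h _ ⟨G, hG, rfl⟩
    rw [BoundedFormula.realize_all, BoundedFormula.realize_all]
    constructor
    · intro ha b
      obtain ⟨a, hab⟩ := extend hM F hF v xs v' xs' h' b
      exact (h1 i j _ _ _ _ hab).mp (ha a)
    · intro ha b
      obtain ⟨a, hab⟩ := extend hM F hF v' xs' v xs (fun G hG => (h' G hG).symm) b
      exact (h1 j i _ _ _ _ hab).mp (ha a)

/-- a split monomorphism preserves complete types -/
theorem same_type [L.IsAlgebraic] (hM : Good L M) {i j : ι} (r : M i →+ M j) (s : M j →+ M i)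
    (hr : IsH L r) (hs : IsH L s) (hsr : ∀ a, s (r a) = a) {α : Type} (v : α → M i)
    (θ : L.Formula α) : θ.Realize v ↔ θ.Realize (r ∘ v) := by
  obtain ⟨F, _, h⟩ := qe (n := 0) hM θ
  unfold Formula.Realize
  have e : (default : Fin 0 → M j) = r ∘ (default : Fin 0 → M i) := Subsingleton.elim _ _
  rw [e]
  refine h i j v default (r ∘ v) (r ∘ default) (fun T _ => ⟨T.nat i j r hr v default, fun h1 => ?_⟩)
  have h2 := T.nat j i s hs _ _ h1
  have e1 : s ∘ r ∘ v = v := by
    funext x
    simp [hsr]
  have e2 : s ∘ r ∘ (default : Fin 0 → M i) = default := Subsingleton.elim _ _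
  rwa [e1, e2] at h2

end

end Pool.Agent.H29.ISO
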